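import Pool.Agent.L7h37.PO.Deg
import Pool.Agent.W722.PO.CNTC
import Pool.Agent.W722.PO.PAIRS

set_option autoImplicit false

/-! Part CNT of helper12's project PO. -/

namespace Pool.Agent.L7h37.PO

open Pool.Agent.W722.PO Pool.Agent.W722.PO.CNTCx Pool.Agent.W722.PO.PAIRSx Pool.Agent.L7h12.PO

lemma Star.symm' {C D : List ℕ} (h : Star C D) : Star D C := fun x hx hx' => (h x hx' hx).symm

lemma ok2_symm {C D : List ℕ} (h : Ok2 C D) : Ok2 D C := ⟨Star.symm' h.1, h.2.symm⟩

lemma csum_sublist {Ds Cs : List (List ℕ)} (h : Ds.Sublist Cs) : csum Ds ≤ csum Cs := by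
  induction h with
  | slnil => exact le_refl _
  | cons a _ ih =>
    rw [csum_cons]
    exact ih.trans (Multiset.le_add_left _ _)
  | cons_cons a _ ih =>
    rw [csum_cons, csum_cons]
    exact add_le_add (le_refl _) ih

theorem cnt_of (hD : S_DEG) : S_CNT := by
  classical
  intro L Cs hC hnd hok hlen hne
  obtain ⟨C, hCm, hmin⟩ := Finset.exists_min_image Cs.toFinset List.length
    (by
      obtain ⟨C, hC⟩ := List.exists_mem_of_ne_nil Cs hne
      exact ⟨C, List.mem_toFinset.2 hC⟩)
  rw [List.mem_toFinset] at hCm
  set Ds := Cs.erase C with hDs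
  have hperm : Cs.Perm (C :: Ds) := List.perm_cons_erase hCm
  have hlenC : Cs.length = Ds.length + 1 := by rw [hperm.length_eq, List.length_cons]
  have hok' : (C :: Ds).Pairwise Ok2 := (hperm.pairwise_iff (fun h => ok2_symm h)).1 hok
  have hmemC : ∀ D ∈ C :: Ds, D ∈ Cs := fun D hD => hperm.mem_iff.2 hD
  have hnd' : (csum (C :: Ds)).Nodup := by rw [← csum_perm hperm]; exact hnd
  have hCC := hC C hCm
  -- each vertex of C
  have hv : ∀ v ∈ C, ((C :: Ds).filter (fun D => v ∈ D)).length + 2 ≤ L := by
    intro v hv
    refine hD L _ v ?_ ?_ ?_ ?_ ?_ ?_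
    · intro D hD'
      exact hC D (hmemC D (List.mem_filter.1 hD').1)
    · exact Multiset.nodup_of_le (csum_sublist List.filter_sublist) hnd'
    · exact (hok'.imp (fun h => h.1)).filter _
    · intro D hD'
      exact hlen D (hmemC D (List.mem_filter.1 hD').1)
    · intro D hD'
      simpa using (List.mem_filter.1 hD').2
    · intro h0
      have : C ∈ (C :: Ds).filter (fun D => v ∈ D) :=
        List.mem_filter.2 ⟨List.mem_cons_self, by simpa using hv⟩
      rw [h0] at this
      exact absurd this (List.not_mem_nil)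
  -- upper bound
  have hup : ((C :: Ds).map (fun D => (C.map (f D)).sum)).sum ≤ C.length * (L - 2) := by
    rw [swap]
    have : (C.map (fun v => ((C :: Ds).filter (fun D => v ∈ D)).length)).sum ≤
        (C.map (fun _ => L - 2)).sum := by
      apply List.sum_le_sum
      intro v hv'
      have := hv v hv'
      omega
    simpa using this
  -- lower bound
  have hlow : Ds.length * C.length ≤ 2 * (Ds.map (fun D => (C.map (f D)).sum)).sum := by
    have : (Ds.map (fun _ => C.length)).sum ≤ (Ds.map (fun D => 2 * (C.map (f D)).sum)).sum := by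
      apply List.sum_le_sum
      intro D hDm
      have hDC := hC D (hmemC D (List.mem_cons_of_mem _ hDm))
      have hmn := hmin D (List.mem_toFinset.2 (hmemC D (List.mem_cons_of_mem _ hDm)))
      rcases ((List.pairwise_cons.1 hok').1 D hDm).2 with h | h
      · exact cycb D C h
      · have h1 := cycb C D h
        have h2 : (D.map (f C)).sum = (C.map (f D)).sum := by
          rw [cnt_eq C D hDC.2, cnt_eq D C hCC.2, Finset.inter_comm]
        omega
    rw [List.sum_map_mul_left] at this
    simpa using this
  have hself : (C.map (f C)).sum = C.length := by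
    rw [cnt_eq C C hCC.2, Finset.inter_self, List.toFinset_card_of_nodup hCC.2]
  rw [List.map_cons, List.sum_cons, hself] at hup
  have h3 : 3 ≤ C.length := hCC.1
  have hCL := hlen C hCm
  have h4 : C.length * (Ds.length + 2) ≤ C.length * (2 * (L - 2)) := by
    calc C.length * (Ds.length + 2) = Ds.length * C.length + 2 * C.length := by ring
      _ ≤ 2 * (Ds.map (fun D => (C.map (f D)).sum)).sum + 2 * C.length := by omega
      _ = 2 * (C.length + (Ds.map (fun D => (C.map (f D)).sum)).sum) := by ring
      _ ≤ 2 * (C.length * (L - 2)) := Nat.mul_le_mul_left 2 hup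
      _ = _ := by ring
  have h5 := Nat.le_of_mul_le_mul_left h4 (by omega : 0 < C.length)
  omega

theorem s_CNT : S_CNT := cnt_of s_DEG

end Pool.Agent.L7h37.PO
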