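import Pool.Agent.L7h12.PO.Stm
import Pool.Agent.W722.PO.DEGR

set_option autoImplicit false

/-! Part DEG of helper12's project PO (sharper form of `DEGR_holds`). -/

namespace Pool.Agent.L7h37.PO

open Pool.Agent.W722.PO Pool.Agent.W722.PO.DEGRx

theorem s_DEG : Pool.Agent.L7h12.PO.S_DEG := by
  classical
  intro M L v hC hnd hst hlen hv hne
  have hmem : ∀ i : Fin L.length, L.get i ∈ L := fun i => List.get_mem L i
  have hdL : L.Pairwise (fun C D => ∀ e, e ∈ cm C → e ∈ cm D → False) := disj L hnd
  have hstL := hst
  rw [List.pairwise_iff_get] at hstL hdL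
  choose b c hbc hbC hcC hbv hcv hb hc using
    fun i : Fin L.length => nb (L.get i) v (hC _ (hmem i)) (hv _ (hmem i))
  let N : Fin L.length → Finset ℕ := fun i => {b i, c i}
  have hNcard : ∀ i, (N i).card = 2 := fun i => Finset.card_pair (hbc i)
  have hNmem : ∀ i x, x ∈ N i → s(v, x) ∈ cm (L.get i) := by
    intro i x hx
    simp only [N, Finset.mem_insert, Finset.mem_singleton] at hx
    rcases hx with rfl | rfl
    · exact hb i
    · exact hc i
  have hNv : ∀ i x, x ∈ N i → x ≠ v := by
    intro i x hx
    simp only [N, Finset.mem_insert, Finset.mem_singleton] at hx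
    rcases hx with rfl | rfl
    · exact hbv i
    · exact hcv i
  have hNdis : ∀ i j, i ≠ j → Disjoint (N i) (N j) := by
    intro i j hij
    rw [Finset.disjoint_left]
    intro x hx1 hx2
    rcases lt_or_gt_of_ne hij with h | h
    · exact hdL i j h _ (hNmem i x hx1) (hNmem j x hx2)
    · exact hdL j i h _ (hNmem j x hx2) (hNmem i x hx1)
  let A : Fin L.length → Finset ℕ := fun q => (L.get q).toFinset.erase v
  have hself : ∀ p, N p ⊆ A p := by
    intro p x hx
    rw [Finset.mem_erase, List.mem_toFinset]
    refine ⟨hNv p x hx, ?_⟩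
    simp only [N, Finset.mem_insert, Finset.mem_singleton] at hx
    rcases hx with rfl | rfl
    · exact hbC p
    · exact hcC p
  have hR : ∀ p q, N p ⊆ A q ∨ N q ⊆ A p := by
    intro p q
    have key : ∀ p q : Fin L.length, (∀ a, s(v, a) ∈ cm (L.get p) → a ∈ L.get q) → N p ⊆ A q := by
      intro p q h x hx
      rw [Finset.mem_erase, List.mem_toFinset]
      exact ⟨hNv p x hx, h x (hNmem p x hx)⟩
    rcases lt_trichotomy p q with h | h | h
    · rcases hstL p q h v (hv _ (hmem p)) (hv _ (hmem q)) with h1 | h1
      · exact Or.inl (key p q h1)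
      · exact Or.inr (key q p h1)
    · subst h
      exact Or.inl (hself p)
    · rcases hstL q p h v (hv _ (hmem q)) (hv _ (hmem p)) with h1 | h1
      · exact Or.inr (key q p h1)
      · exact Or.inl (key p q h1)
  have hL3 : ∀ q : Fin L.length, 3 ≤ (L.get q).length := fun q => (hC _ (hmem q)).1
  have hA : ∀ q, (A q).card ≤ M - 1 := by
    intro q
    have h0 : v ∈ (L.get q).toFinset := List.mem_toFinset.2 (hv _ (hmem q))
    have h1 : (A q).card = (L.get q).toFinset.card - 1 := Finset.card_erase_of_mem h0
    have h2 := List.toFinset_card_le (L.get q)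
    have h3 := hlen _ (hmem q)
    omega
  set T := (Finset.univ ×ˢ Finset.univ : Finset (Fin L.length × Fin L.length)).filter
    (fun z => N z.1 ⊆ A z.2) with hT
  set T' := (Finset.univ ×ˢ Finset.univ : Finset (Fin L.length × Fin L.length)).filter
    (fun z => N z.2 ⊆ A z.1) with hT'
  have hTT : T'.card = T.card := by
    apply Finset.card_bij' (fun z _ => z.swap) (fun z _ => z.swap)
    all_goals
      intro z hz
      first
        | exact Prod.swap_swap z
        | simpa [hT, hT'] using hz
  have hunion : (Finset.univ ×ˢ Finset.univ : Finset (Fin L.length × Fin L.length)) ⊆ T ∪ T' := by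
    intro z hz
    rw [Finset.mem_union, hT, hT', Finset.mem_filter, Finset.mem_filter]
    rcases hR z.1 z.2 with h | h
    · exact Or.inl ⟨hz, h⟩
    · exact Or.inr ⟨hz, h⟩
  have hdiag : (Finset.univ : Finset (Fin L.length)).image (fun i => (i, i)) ⊆ T ∩ T' := by
    intro z hz
    obtain ⟨i, _, rfl⟩ := Finset.mem_image.1 hz
    rw [Finset.mem_inter, hT, hT', Finset.mem_filter, Finset.mem_filter]
    exact ⟨⟨Finset.mem_product.2 ⟨Finset.mem_univ _, Finset.mem_univ _⟩, hself i⟩,
      ⟨Finset.mem_product.2 ⟨Finset.mem_univ _, Finset.mem_univ _⟩, hself i⟩⟩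
  have hdc : ((Finset.univ : Finset (Fin L.length)).image (fun i => (i, i))).card = L.length := by
    rw [Finset.card_image_of_injective _ (fun i j h => (Prod.mk.inj h).1), Finset.card_univ,
      Fintype.card_fin]
  have h1 : L.length * L.length + L.length ≤ 2 * T.card := by
    have h2 := Finset.card_le_card hunion
    rw [Finset.card_product, Finset.card_univ, Fintype.card_fin] at h2
    have h3 := Finset.card_union_add_card_inter T T'
    have h4 := Finset.card_le_card hdiag
    rw [hdc] at h4
    omega
  have h4 : T.card = ∑ q : Fin L.length, (Finset.univ.filter (fun p => N p ⊆ A q)).card := by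
    rw [hT, Finset.card_filter, Finset.sum_product_right]
    apply Finset.sum_congr rfl
    intro q _
    rw [Finset.card_filter]
  have h5 : ∀ q, 2 * (Finset.univ.filter (fun p => N p ⊆ A q)).card ≤ M - 1 := by
    intro q
    refine le_trans ?_ (hA q)
    have h6 : ((Finset.univ.filter (fun p => N p ⊆ A q)).biUnion N).card
        = ∑ p ∈ Finset.univ.filter (fun p => N p ⊆ A q), (N p).card :=
      Finset.card_biUnion (fun i _ j _ hij => hNdis i j hij)
    have h7 : (Finset.univ.filter (fun p => N p ⊆ A q)).biUnion N ⊆ A q := by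
      rw [Finset.biUnion_subset]
      intro p hp
      exact (Finset.mem_filter.mp hp).2
    have h8 := Finset.card_le_card h7
    rw [h6, Finset.sum_congr rfl (fun p _ => hNcard p), Finset.sum_const, smul_eq_mul] at h8
    omega
  have h9 : 2 * T.card ≤ L.length * (M - 1) := by
    rw [h4, Finset.mul_sum]
    calc ∑ q : Fin L.length, 2 * (Finset.univ.filter (fun p => N p ⊆ A q)).card
        ≤ ∑ q : Fin L.length, (M - 1) := Finset.sum_le_sum fun q _ => h5 q
      _ = L.length * (M - 1) := by simp
  have h10 : L.length * (L.length + 1) ≤ L.length * (M - 1) := by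
    have := h1.trans h9
    calc L.length * (L.length + 1) = L.length * L.length + L.length := by ring
      _ ≤ _ := this
  have h0 : 0 < L.length := List.length_pos_iff.2 hne
  have h11 := Nat.le_of_mul_le_mul_left h10 h0
  omega

end Pool.Agent.L7h37.PO
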